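import Mathlib
import Pool.Agent.H33.HotDefs
import Pool.Agent.H33.HotIsoDefs
import Pool.Agent.H33.Hot1

open Set Real

namespace Pool.Agent.Results.MP_630a53_an.Q1
open Pool.Agent.H33.Hot

def dg {a b : ℕ} (Γ : MGraph a b) (v : Fin a) : ℕ :=
  ∑ e, ((if Γ.src e = v then 1 else 0) + if Γ.tgt e = v then 1 else 0)

def N3 {a b : ℕ} (Γ : MGraph a b) : ℕ := ∑ v, if dg Γ v = 3 then 1 else 0

lemma N3_iso {a b c d : ℕ} {Γ : MGraph a b} {Δ : MGraph c d} (h : Iso Γ Δ) : N3 Γ = N3 Δ := by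
  obtain ⟨φ, ψ, h⟩ := h
  have : ∀ v, dg Δ (φ v) = dg Γ v := by
    intro v
    unfold dg
    rw [← Equiv.sum_comp ψ]
    refine Finset.sum_congr rfl fun e _ => ?_
    rcases Sym2.eq_iff.1 (h e).2 with ⟨h1, h2⟩ | ⟨h1, h2⟩ <;> simp [h1, h2, add_comm]
  unfold N3
  rw [← Equiv.sum_comp φ]
  simp only [this]

lemma N3_sub {a b : ℕ} (Γ : MGraph a b) (e0 : Fin b) (t : Ioo (0 : ℝ) (Γ.len e0)) :
    N3 Γ = N3 (subdiv Γ e0 t) := by
  have h0 : dg (subdiv Γ e0 t) 0 = 2 := by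
    simp only [dg, subdiv, Fin.sum_univ_succ, Fin.cons_zero, Fin.cons_succ, Fin.succ_ne_zero,
      if_true, if_false, zero_add, add_zero]
    rw [Finset.sum_eq_single e0]
    · simp
    · intro e _ he; simp [he]
    · simp
  have h1 : ∀ v, dg (subdiv Γ e0 t) v.succ = dg Γ v := by
    intro v
    simp only [dg, subdiv, Fin.sum_univ_succ, Fin.cons_zero, Fin.cons_succ, Fin.succ_inj,
      (Fin.succ_ne_zero _).symm, if_false, zero_add, Finset.sum_add_distrib]
    rw [← Finset.add_sum_erase _ (fun e => if Γ.tgt e = v then 1 else 0) (Finset.mem_univ e0),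
      ← Finset.add_sum_erase _ (fun e => if (if e = e0 then 0 else (Γ.tgt e).succ) = v.succ
        then 1 else 0) (Finset.mem_univ e0)]
    have : ∑ e ∈ Finset.univ.erase e0, (if (if e = e0 then 0 else (Γ.tgt e).succ) = v.succ
        then 1 else 0) = ∑ e ∈ Finset.univ.erase e0, if Γ.tgt e = v then 1 else 0 :=
      Finset.sum_congr rfl fun e he => by simp [Finset.ne_of_mem_erase he]
    rw [this]
    simp only [if_true, (Fin.succ_ne_zero _).symm, if_false]
    omega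
  simp only [N3, Fin.sum_univ_succ, h0, h1]
  simp

lemma N3_same {X Y : Σ a b, MGraph a b} (h : Same X Y) : N3 X.2.2 = N3 Y.2.2 := by
  induction h with
  | rel X Y h =>
    rcases h with h | ⟨e, t, rfl⟩
    exacts [N3_iso h, N3_sub _ _ _]
  | refl => rfl
  | symm _ _ _ ih => exact ih.symm
  | trans _ _ _ _ _ h1 h2 => exact h1.trans h2

lemma N3_le {a b : ℕ} (Γ : MGraph a b) : N3 Γ ≤ a := by
  refine (Finset.sum_le_card_nsmul _ _ 1 fun v _ => by split_ifs <;> simp).trans (by simp)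

lemma dg_complete {a b : ℕ} {Γ : MGraph a b} (h : IsComplete Γ) (v : Fin a) : a - 1 ≤ dg Γ v := by
  have h1 : (Finset.univ.erase v).card ≤
      (Finset.univ.filter fun e => Γ.src e = v ∨ Γ.tgt e = v).card := by
    refine Finset.card_le_card_of_surjOn (fun e => if Γ.src e = v then Γ.tgt e else Γ.src e) ?_
    intro u hu
    have hu' : u ≠ v := Finset.ne_of_mem_erase hu
    obtain ⟨e, he, -⟩ := h.2.2 u v hu'
    rcases Sym2.eq_iff.1 he with ⟨h1, h2⟩ | ⟨h1, h2⟩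
    · exact ⟨e, by simp [h2], by simp [h1, hu']⟩
    · exact ⟨e, by simp [h1], by simp [h1, h2]⟩
  rw [Finset.card_erase_of_mem (Finset.mem_univ _), Finset.card_univ, Fintype.card_fin,
    Finset.card_filter] at h1
  refine h1.trans (Finset.sum_le_sum fun e _ => ?_)
  split_ifs <;> simp_all

noncomputable def K : MGraph 6 9 where
  src := ![0, 0, 0, 1, 1, 1, 2, 2, 2]
  tgt := ![3, 4, 5, 3, 4, 5, 3, 4, 5]
  len := fun _ => π / 2
  len_pos := fun _ => by positivity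

lemma N3K : N3 K = 6 := by
  simp only [N3, dg, K]; decide

noncomputable def xv (e : Fin 9) (θ : ℝ) (w : Fin 6) : ℝ :=
  if w = K.src e then cos θ else if w = K.tgt e then sin θ else
    if w < 3 then -cos θ / 2 else -sin θ / 2

lemma xs (e : Fin 9) (θ : ℝ) : xv e θ (K.src e) = cos θ := by simp [xv]
lemma xt (e : Fin 9) (θ : ℝ) : xv e θ (K.tgt e) = sin θ := by
  fin_cases e <;> simp [xv, K]

lemma eig (e : Fin 9) (θ : ℝ) : IsEigenfun K 0 1 (ps K cos sin (xv e θ)) := by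
  refine of_VE K cs_one (fun e => by simp [K]) (fun h => ?_) fun v => ?_
  · have h1 := xs e θ
    have h2 := xt e θ
    have := sin_sq_add_cos_sq θ
    rw [← h1, ← h2, h] at this
    simp at this
  · fin_cases e <;> fin_cases v <;> simp [Fin.sum_univ_succ, K, xv] <;> ring

lemma le1 (e : Fin 9) (θ : ℝ) (q : Pt K) : ps K cos sin (xv e θ) q ≤ 1 := by
  have a := sin_sq_add_cos_sq θ
  refine ps_le K _ (fun v => ?_) (fun e' => Or.inl ⟨rfl, ?_⟩) q
  · unfold xv
    split_ifs <;> linarith [cos_le_one θ, sin_le_one θ, neg_one_le_cos θ, neg_one_le_sin θ]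
  · have h1 : xv e θ (K.src e') ^ 2 ≤ cos θ ^ 2 := by
      fin_cases e <;> fin_cases e' <;> simp [xv, K] <;> nlinarith [sq_nonneg (cos θ)]
    have h2 : xv e θ (K.tgt e') ^ 2 ≤ sin θ ^ 2 := by
      fin_cases e <;> fin_cases e' <;> simp [xv, K] <;> nlinarith [sq_nonneg (sin θ)]
    linarith

lemma low {k : ℝ} (hk : 0 < k) (hk1 : k < 1) : k ^ 2 ∉ Spec K 0 := by
  rintro ⟨ψ, h⟩
  obtain ⟨c0, c1, s0⟩ := trig hk hk1
  have hσ : 0 < sin (k * (π / 2)) / k := by positivity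
  obtain ⟨h0, h⟩ := to_VE K (cs_pos hk.ne') (fun e => hσ.ne') h
  set x := fun v => ψ (Sum.inl v)
  have K0 := h 0
  have K1 := h 1
  have K2 := h 2
  have K3 := h 3
  have K4 := h 4
  have K5 := h 5
  simp only [K] at K0 K1 K2 K3 K4 K5
  generalize sin (k * (π / 2)) / k = σ at *
  generalize cos (k * (π / 2)) = c at *
  simp [Fin.sum_univ_succ] at K0 K1 K2 K3 K4 K5
  field_simp at K0 K1 K2 K3 K4 K5
  have hA : (x 0 + x 1 + x 2) * (1 - c ^ 2) = 0 := by
    linear_combination (c / 3) * (K0 + K1 + K2) + (1 / 3) * (K3 + K4 + K5)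
  have hA' : x 0 + x 1 + x 2 = 0 := (mul_eq_zero.1 hA).resolve_right (by nlinarith)
  have hB : x 3 + x 4 + x 5 = 0 := by linear_combination (1 / 3) * (K0 + K1 + K2) + c * hA'
  apply h0
  funext v
  apply mul_left_cancel₀ c0.ne'
  fin_cases v <;> simp only [Fin.reduceFinMk, Pi.zero_apply, Fin.zero_eta, Fin.mk_one] <;> linarith

theorem result : ∃ (nV nE : ℕ) (Γ : MGraph nV nE) (μ : ℝ), Connected Γ ∧
    IsLeast {ν ∈ Spec Γ 0 | 0 < ν} μ ∧ HotSet Γ 0 μ = univ ∧
    ∀ (a b : ℕ) (Δ : MGraph a b), IsPumpkin Δ ∨ IsComplete Δ → ¬ Same ⟨nV, nE, Γ⟩ ⟨a, b, Δ⟩ := by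
  refine ⟨6, 9, K, 1, ⟨by norm_num, ?_⟩, ⟨⟨⟨_, eig 0 0⟩, one_pos⟩, ?_⟩, ?_, ?_⟩
  · let R := fun a b => ∃ e, K.src e = a ∧ K.tgt e = b
    have h3 : Relation.EqvGen R 0 3 := .rel _ _ ⟨0, rfl, rfl⟩
    have : ∀ v, Relation.EqvGen R 0 v := by
      intro v
      fin_cases v
      · exact .refl _
      · exact .trans _ _ _ h3 (.symm _ _ (.rel _ _ ⟨3, rfl, rfl⟩))
      · exact .trans _ _ _ h3 (.symm _ _ (.rel _ _ ⟨6, rfl, rfl⟩))
      · exact h3
      · exact .rel _ _ ⟨1, rfl, rfl⟩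
      · exact .rel _ _ ⟨2, rfl, rfl⟩
    exact fun v w => .trans _ _ _ (.symm _ _ (this v)) (this w)
  · rintro ν ⟨hψ, h0⟩
    by_contra hlt
    rw [← sq_sqrt h0.le] at hψ
    exact low (sqrt_pos.2 h0) ((sqrt_lt' one_pos).2 (by simpa using hlt)) hψ
  · refine eq_univ_of_forall ?_
    rintro (v | ⟨e, s⟩)
    · have : (∃ e, K.src e = v) ∨ ∃ e, K.tgt e = v := by
        simp only [K]; revert v; decide
      rcases this with ⟨e, rfl⟩ | ⟨e, rfl⟩
      · refine ⟨_, eig e 0, Or.inl fun q => (le1 e 0 q).trans (Eq.ge ?_)⟩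
        exact (xs e 0).trans cos_zero
      · refine ⟨_, eig e (π / 2), Or.inl fun q => (le1 e _ q).trans (Eq.ge ?_)⟩
        exact (xt e _).trans sin_pi_div_two
    · exact ⟨_, eig e s, Or.inl fun q => (le1 e s q).trans
        (ps_top K _ e s rfl (xs e s) (xt e s)).ge⟩
  · intro a b Δ h hs
    have h6 : N3 Δ = 6 := (N3_same hs).symm.trans N3K
    have ha := N3_le Δ
    rcases h with h | h
    · have := h.2.1; omega
    · have : N3 Δ = 0 := Finset.sum_eq_zero fun v _ => by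
        have := dg_complete h v
        rw [if_neg (by omega)]
      omega

end Pool.Agent.Results.MP_630a53_an.Q1
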